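import Pool.Agent.Lib.MP_b33ea7_lc.Defs

/-!
The rainbow Ramsey theorem for families of finite sets, over Turing ideals.
-/

namespace Pool.Agent.FS.SchreierRainbow

open Pool.Agent.Lib.MP_b33ea7_lc

/-- The rainbow Ramsey theorem for the family `B`: every colouring in `I` that gives each colour
to at most `k` members of `B` is injective on the members of `B` inside some infinite set in `I`. -/
def RRT (I : Set (ℕ → Bool)) (B : Set (List ℕ)) (k : ℕ) : Prop :=
  ∀ f : List ℕ → ℕ, InI I f → (∀ c, {l ∈ B | f l = c}.encard ≤ k) →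
    ∃ H ∈ I, {a | H a = true}.Infinite ∧ Set.InjOn f {l ∈ B | ∀ a ∈ l, H a = true}

/-- Increasing lists `x ++ a :: t` with `x` of length `j` and `t` of length `h a`. The Schreier
barrier of exactly large sets is `Bar 0 id`. -/
def Bar (j : ℕ) (h : ℕ → ℕ) : Set (List ℕ) :=
  {l | l.Pairwise (· < ·) ∧ ∃ x a t, l = x ++ a :: t ∧ x.length = j ∧ t.length = h a}

open Classical in
/-- Families in `I` of increasing lists, none included in another, whose lengths are bounded by
a function in `I` of the least element. -/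
def Short (I : Set (ℕ → Bool)) (B : Set (List ℕ)) : Prop :=
  InI I (fun l => decide (l ∈ B)) ∧ (∀ l ∈ B, l.Pairwise (· < ·)) ∧
    (∀ l ∈ B, ∀ l' ∈ B, l ⊆ l' → l = l') ∧
    ∃ h : ℕ → ℕ, InI I h ∧ ∀ a t, a :: t ∈ B → t.length ≤ h a

end Pool.Agent.FS.SchreierRainbow
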