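import Pool.Agent.Lib.MP_b33ea7_lc.Model

/-!
Conflict graphs of bounded degree on finite sets, and conditions that carry a closed class of them.
-/

namespace Pool.Agent.FS.SchreierRainbow

open Pool.Agent.Lib.MP_b33ea7_lc Pool.Agent.Shared.Oracle Pool.Agent.Lib.MP_5290c5_lc

attribute [local irreducible] Computable

/-- Graphs on finite sets. -/
abbrev Gr := Finset ℕ → Finset ℕ → Prop

/-- Conflict graphs with size and degree bound `D`. -/
structure Nice (D : ℕ → ℕ) (G : Gr) : Prop where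
  symm : ∀ u v, G u v → G v u
  size : ∀ u v, G u v → ∀ a ∈ u, u.card ≤ D a
  anti : ∀ u v, G u v → ¬ u ⊆ v
  deg : ∀ u, ∀ a ∈ u, ∀ V : Finset ℕ, (∀ c ∈ V, G u (fs c)) → V.card ≤ D a

theorem code_inj : Function.Injective code := fun s t h => by
  rw [← fs_code s, h, fs_code]

theorem fs_inj : Function.Injective fs := fun s t h => by
  rw [← code_fs s, h, code_fs]

theorem Nice.deg' {D : ℕ → ℕ} {G : Gr} (h : Nice D G) {u : Finset ℕ} {a : ℕ} (ha : a ∈ u)
    (V : Finset ℕ) (g : ℕ → Finset ℕ) (hg : Set.InjOn g V) (hV : ∀ c ∈ V, G u (g c)) :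
    V.card ≤ D a := by
  have h1 := h.deg u a ha (V.image fun c => code (g c)) (by
    intro c hc
    obtain ⟨x, hx, rfl⟩ := Finset.mem_image.1 hc
    rw [fs_code]
    exact hV x hx)
  rwa [Finset.card_image_of_injOn fun x hx y hy e => hg hx hy (code_inj e)] at h1

/-- No edge whose ends have the same part in the reservoir. -/
def Tw (σ : Finset ℕ) (Y : Re) (G : Gr) : Prop :=
  ∀ u ⊆ σ, ∀ v ⊆ σ, ∀ w, In w Y → ¬ G (u ∪ w) (v ∪ w)

/-- No edge inside `X`. -/
def Fr (G : Gr) (X : Re) : Prop := ∀ u v, In u X → In v X → ¬ G u v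

/-- No edge inside the finite set `ρ`. -/
def FrF (G : Gr) (ρ : Finset ℕ) : Prop := ∀ u ⊆ ρ, ∀ v ⊆ ρ, ¬ G u v

/-- Few points cannot be added to the stem. -/
theorem one_point {D : ℕ → ℕ} {G : Gr} {σ : Finset ℕ} {Y : Re} (hG : Nice D G) (hT : Tw σ Y G)
    {A : Finset ℕ} (hA : In A Y) (hc : σ.sup D * 2 ^ σ.card < A.card) :
    ∃ a ∈ A, FrF G (σ ∪ {a}) := by
  classical
  by_contra hcon
  have h1 : ∀ a ∈ A, ∃ u, u ⊆ σ ∧ ∃ v, v ⊆ σ ∪ {a} ∧ a ∈ v ∧ a ∉ σ ∧ G u v := by
    intro a ha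
    have h2 : ¬ FrF G (σ ∪ {a}) := fun h => hcon ⟨a, ha, h⟩
    simp only [FrF, not_forall, not_not] at h2
    obtain ⟨u, hu, v, hv, e⟩ := h2
    have h3 : ∀ {u : Finset ℕ}, u ⊆ σ ∪ {a} → a ∈ σ ∨ a ∉ u → u ⊆ σ := by
      intro u hu h x hx
      rcases Finset.mem_union.1 (hu hx) with h4 | h4
      · exact h4
      · rw [Finset.mem_singleton.1 h4] at hx ⊢
        exact h.resolve_right (not_not.2 hx)
    have h4 : ∀ {u v : Finset ℕ}, u ⊆ σ → v ⊆ σ → ¬ G u v := fun hu hv => by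
      simpa using hT _ hu _ hv ∅ (by simp [In])
    by_cases h5 : a ∈ σ
    · exact absurd e (h4 (h3 hu (Or.inl h5)) (h3 hv (Or.inl h5)))
    by_cases h6 : a ∈ u <;> by_cases h7 : a ∈ v
    · have h8 : ∀ {u : Finset ℕ}, a ∈ u → u.erase a ∪ {a} = u := fun hu => by
        rw [Finset.union_comm, ← Finset.insert_eq, Finset.insert_erase hu]
      refine absurd ?_ (hT (u.erase a)
        (h3 ((Finset.erase_subset _ _).trans hu) (Or.inr (Finset.notMem_erase _ _))) (v.erase a)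
        (h3 ((Finset.erase_subset _ _).trans hv) (Or.inr (Finset.notMem_erase _ _))) {a}
        (by simpa [In] using hA a ha))
      rwa [h8 h6, h8 h7]
    · exact ⟨v, h3 hv (Or.inr h7), u, hu, h6, h5, hG.symm _ _ e⟩
    · exact ⟨u, h3 hu (Or.inr h6), v, hv, h7, h5, e⟩
    · exact absurd e (h4 (h3 hu (Or.inr h6)) (h3 hv (Or.inr h7)))
  choose! U hU V hV1 hV2 hV3 hV4 using h1
  have h2 := Finset.card_le_mul_card_image_of_maps_to (s := A) (t := σ.powerset) (f := U)
    (fun a ha => Finset.mem_powerset.2 (hU a ha)) (σ.sup D) (by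
      intro u hu
      rcases (A.filter fun a => U a = u).eq_empty_or_nonempty with h | ⟨a, ha⟩
      · simp [h]
      obtain ⟨ha1, ha2⟩ := Finset.mem_filter.1 ha
      obtain ⟨b, hb, -⟩ := Finset.not_subset.1 (hG.anti _ _ (hV4 a ha1))
      rw [ha2] at hb
      refine (hG.deg' hb _ V ?_ ?_).trans (Finset.le_sup (Finset.mem_powerset.1 hu hb))
      · intro x hx y hy e
        have hx1 := (Finset.mem_filter.1 hx).1
        have hy1 := (Finset.mem_filter.1 hy).1
        have h3 := hV1 y hy1 (e ▸ hV2 x hx1)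
        simpa [hV3 x hx1] using h3
      · intro x hx
        obtain ⟨hx1, hx2⟩ := Finset.mem_filter.1 hx
        exact hx2 ▸ hV4 x hx1)
  rw [Finset.card_powerset] at h2
  omega

/-- Conditions. -/
structure Cond (T : Tgt) where
  /-- The oracle. -/
  Z : Re
  /-- The stem. -/
  σ : Finset ℕ
  /-- The reservoir. -/
  Y : Re
  /-- The class. -/
  P : Set Re
  /-- The graph given by a point. -/
  E : Re → Gr
  /-- The degree bound. -/
  D : ℕ → ℕ
  good : Good T Z
  red : Red Y Z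
  inf : Inf Y
  ne : P.Nonempty
  pi : Pi1 Z P
  pos : S1 Z fun (x : Finset ℕ × Finset ℕ) p => E p x.1 x.2
  neg : S1 Z fun (x : Finset ℕ × Finset ℕ) p => ¬ E p x.1 x.2
  cD : SigIn Z fun x : ℕ × ℕ => D x.1 < x.2
  nice : ∀ p ∈ P, Nice D (E p)
  tw : ∀ p ∈ P, Tw σ Y (E p)

variable {T : Tgt}

/-- The sets that a condition leaves possible. -/
def Cond.Poss (c : Cond T) : Set Re := {X | X ∈ Cyl c.σ c.Y ∧ ∃ p ∈ c.P, Fr (c.E p) X}

theorem Cond.poss_ne (c : Cond T) : c.Poss.Nonempty := by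
  obtain ⟨p, hp⟩ := c.ne
  refine ⟨add c.σ emp, ⟨fun a ha => by simp [ha], fun a ha => by simpa using Or.inl ha⟩, p, hp,
    fun u v hu hv => ?_⟩
  simpa using c.tw p hp u (fun a ha => by simpa using hu a ha) v
    (fun a ha => by simpa using hv a ha) ∅ (by simp [In])

theorem isOpen_in (u : Finset ℕ) : IsOpen {X : Re | In u X} := by
  have : {X : Re | In u X} = ⋂ a ∈ u, {X : Re | X a = true} := by
    ext X
    simp [In]
  rw [this]
  exact isOpen_biInter_finset fun a _ => (isClosed_eq_true a).isOpen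

theorem Cond.poss_closed (c : Cond T) : IsClosed c.Poss := by
  have h1 : IsClosed {x : Re × Re | x.2 ∈ c.P ∧ Fr (c.E x.2) x.1} := by
    have : {x : Re × Re | x.2 ∈ c.P ∧ Fr (c.E x.2) x.1} = Prod.snd ⁻¹' c.P ∩
        ⋂ u, ⋂ v, (Prod.fst ⁻¹' {X | In u X} ∩ (Prod.fst ⁻¹' {X | In v X} ∩
          Prod.snd ⁻¹' {p | c.E p u v}))ᶜ := by
      ext x
      simp [Fr]
    rw [this]
    exact (c.pi.isClosed.preimage continuous_snd).inter (isClosed_iInter fun u =>
      isClosed_iInter fun v => (((isOpen_in u).preimage continuous_fst).inter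
        (((isOpen_in v).preimage continuous_fst).inter
          ((c.pos.isOpen (u, v)).preimage continuous_snd))).isClosed_compl)
  have h2 : c.Poss = Cyl c.σ c.Y ∩
      Prod.fst '' {x : Re × Re | x.2 ∈ c.P ∧ Fr (c.E x.2) x.1} := by
    ext X
    simp [Cond.Poss]
  rw [h2]
  exact (isClosed_cyl _ _).inter (h1.isCompact.image continuous_fst).isClosed

theorem catalan_le (n : ℕ) : catalan n ≤ 4 ^ n := by
  rw [catalan_eq_centralBinom_div, show (4 : ℕ) ^ n = 2 ^ (2 * n) by rw [pow_mul]; norm_num]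
  exact (Nat.div_le_self _ _).trans (Nat.choose_le_two_pow _ _)

/-- The degree bound of the graph of limit types. -/
def star (D : ℕ → ℕ) (a : ℕ) : ℕ := D a * (D a * 4 ^ D a + 1)

/-- The graph of limit types below `N`. -/
theorem Cond.types (c : Cond T) (N : ℕ) (hN : c.σ ⊆ Finset.range N) :
    ∃ G : Gr, Nice (star c.D) G ∧ Tw c.σ c.Y G ∧ ∀ ρ ⊆ Finset.range N, In ρ c.Y →
      FrF G (c.σ ∪ ρ) → ∀ u, ∃ d : Cond T, Red c.Z d.Z ∧ d.Poss ⊆ c.Poss ∧
        ∀ X ∈ d.Poss, In ρ X ∧ ∀ i < u, X i = add (c.σ ∪ ρ) emp i := by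
  classical
  let col : Re → Finset ℕ → ((Finset.range N).powerset × (Finset.range N).powerset → Prop) :=
    fun p D x => c.E p (x.1.1 ∪ D) (x.2.1 ∪ D)
  have hcol : Col c.Z col := Col.pi fun x q => by
    by_cases hq : q
    · exact (c.pos.comp (f := fun D : Finset ℕ => (x.1.1 ∪ D, x.2.1 ∪ D))
        (by fun_prop)).congr fun _ _ => by simp [hq]
    · exact (c.neg.comp (f := fun D : Finset ℕ => (x.1.1 ∪ D, x.2.1 ∪ D))
        (by fun_prop)).congr fun _ _ => by simp [hq]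
  obtain ⟨Z', Y', Q, J, wf, hZ, hY, hQ, hJ⟩ := multi (n := (Finset.range N).sup c.D) (c := catalan)
    (fun j _ => sProp_catalan T j) (Z := c.Z) (Y := cut c.Y N) (P := c.P) (col := col)
    ⟨c.good, red_cut c.red _, c.inf.cut _, c.ne, c.pi, hcol⟩
  obtain ⟨q₀, hq₀⟩ := wf.ne
  have hpi : Pi1 Z' {q | q ∈ Q ∧ ¬ (col q ∅ ≠ col q₀ ∅)} :=
    wf.pi.sep (wf.col.pred (· ≠ col q₀ ∅) (s := fun _ => ∅) (Computable.const _))
  have hY' : Sub Y' c.Y := hY.trans (cut_sub _ _)
  have hdis : ∀ {u w : Finset ℕ}, u ⊆ Finset.range N → In w Y' → Disjoint u w := fun hu hw =>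
    Finset.disjoint_left.2 fun a h1 h2 => by
      have h3 := (cut_true.1 (hY a (hw a h2))).1
      have h4 := Finset.mem_range.1 (hu h1)
      omega
  refine ⟨fun u v => u ⊆ Finset.range N ∧ v ⊆ Finset.range N ∧
    ∃ q, (q ∈ Q ∧ ¬ (col q ∅ ≠ col q₀ ∅)) ∧ ∃ w, In w Y' ∧ c.E q (u ∪ w) (v ∪ w),
    ⟨?_, ?_, ?_, ?_⟩, ?_, ?_⟩
  · rintro u v ⟨h1, h2, q, h3, w, h4, h5⟩
    exact ⟨h2, h1, q, h3, w, h4, (c.nice q (hQ h3.1)).symm _ _ h5⟩
  · rintro u v ⟨h1, h2, q, h3, w, h4, h5⟩ a ha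
    exact ((Finset.card_le_card Finset.subset_union_left).trans
      ((c.nice q (hQ h3.1)).size _ _ h5 a (Finset.mem_union_left _ ha))).trans
        (Nat.le_mul_of_pos_right _ (Nat.succ_pos _))
  · rintro u v ⟨h1, h2, q, h3, w, h4, h5⟩ h
    exact (c.nice q (hQ h3.1)).anti _ _ h5 (Finset.union_subset_union_left h)
  · intro u a ha V hV
    rcases V.eq_empty_or_nonempty with rfl | ⟨x₀, hx₀⟩
    · simp
    choose! q hq w hw he using fun x hx => (hV x hx).2.2
    refine (Finset.card_le_mul_card_image_of_maps_to (s := V)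
      (t := insert (col q₀ ∅) ((Finset.range (c.D a)).biUnion J)) (f := fun x => col (q x) (w x))
      ?_ (c.D a) ?_).trans (Nat.mul_le_mul_left _ ?_)
    · intro x hx
      have h1 := (c.nice _ (hQ (hq x hx).1)).size _ _ (he x hx) a (Finset.mem_union_left _ ha)
      rw [Finset.card_union_of_disjoint (hdis (hV x hx).1 (hw x hx))] at h1
      have h2 := Finset.card_pos.2 ⟨a, ha⟩
      have h3 := Finset.le_sup (f := c.D) ((hV x hx).1 ha)
      rcases h4 : (w x).card with _ | j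
      · rw [Finset.card_eq_zero.1 h4, not_not.1 (hq x hx).2]
        exact Finset.mem_insert_self _ _
      · exact Finset.mem_insert_of_mem (Finset.mem_biUnion.2 ⟨j, Finset.mem_range.2 (by omega),
          (hJ j (by omega)).2 _ (hq x hx).1 _ (hw x hx) h4⟩)
    · intro τ _
      rcases (V.filter fun x => col (q x) (w x) = τ).eq_empty_or_nonempty with h | ⟨y, hy⟩
      · simp [h]
      obtain ⟨hy1, hy2⟩ := Finset.mem_filter.1 hy
      refine (c.nice _ (hQ (hq y hy1).1)).deg' (u := u ∪ w y) (Finset.mem_union_left _ ha) _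
        (fun x => fs x ∪ w y) ?_ ?_
      · intro x hx z hz e
        have hx1 := (Finset.mem_filter.1 hx).1
        have hz1 := (Finset.mem_filter.1 hz).1
        refine fs_inj ?_
        have h1 := congrArg (· \ w y) e
        simp only [Finset.union_sdiff_right] at h1
        rwa [Finset.sdiff_eq_self_of_disjoint (hdis (hV x hx1).2.1 (hw y hy1)),
          Finset.sdiff_eq_self_of_disjoint (hdis (hV z hz1).2.1 (hw y hy1))] at h1
      · intro x hx
        obtain ⟨hx1, hx2⟩ := Finset.mem_filter.1 hx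
        have h1 := congrFun (hx2.trans hy2.symm) (⟨u, Finset.mem_powerset.2 (hV x hx1).1⟩,
          ⟨fs x, Finset.mem_powerset.2 (hV x hx1).2.1⟩)
        exact h1.mp (he x hx1)
    · refine (Finset.card_insert_le _ _).trans (Nat.succ_le_succ ?_)
      have h3 := Finset.le_sup (f := c.D) ((hV x₀ hx₀).1 ha)
      refine (Finset.card_biUnion_le_card_mul _ _ (4 ^ c.D a) fun j hj => ?_).trans (by simp)
      have h4 := Finset.mem_range.1 hj
      exact (hJ j (by omega)).1.trans ((catalan_le j).trans (Nat.pow_le_pow_right (by omega) h4.le))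
  · rintro u hu v hv w₀ h₀ ⟨-, -, q, h3, w, h4, h5⟩
    rw [Finset.union_assoc, Finset.union_assoc] at h5
    exact c.tw q (hQ h3.1) u hu v hv (w₀ ∪ w)
      (fun a ha => (Finset.mem_union.1 ha).elim (h₀ a) fun h => hY' a (h4 a h)) h5
  · intro ρ h1 h2 h3 u
    have h4 : c.σ ∪ ρ ⊆ Finset.range N := Finset.union_subset hN h1
    refine ⟨⟨Z', c.σ ∪ ρ, cut Y' u, {q | q ∈ Q ∧ ¬ (col q ∅ ≠ col q₀ ∅)}, c.E, c.D, wf.good,
      red_cut wf.red _, wf.inf.cut _, ⟨q₀, hq₀, by simp⟩, hpi, c.pos.red hZ, c.neg.red hZ, c.cD.red hZ, fun p hp => c.nice p (hQ hp.1),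
      fun p hp s hs t ht w hw e => h3 s hs t ht
        ⟨hs.trans h4, ht.trans h4, p, hp, w, hw.sub (cut_sub _ _), e⟩⟩, hZ, ?_, ?_⟩
    · rintro X ⟨h5, p, hp, h6⟩
      exact ⟨cyl_extend ((cut_sub _ _).trans hY') h2 h5, p, hQ hp.1, h6⟩
    · rintro X ⟨h5, -⟩
      refine ⟨In.mono h5.1 Finset.subset_union_right, fun i hi => re_ext ?_⟩
      simp only [add_true, emp_true, or_false]
      refine ⟨fun h => (h5.2 i h).resolve_right fun h' => ?_, h5.1 i⟩
      have := (cut_true.1 h').1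
      omega

end Pool.Agent.FS.SchreierRainbow
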