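import Pool.Agent.FS.SchreierRainbow.Step
import Pool.Agent.FS.SchreierRainbow.Defs
import Pool.Agent.Lib.MP_b33ea7_lc.Free

/-!
A Turing ideal of good sets closed under rainbows for short families; the next barrier codes
the jump.
-/

namespace Pool.Agent.FS.SchreierRainbow

open Pool.Agent.Lib.MP_b33ea7_lc Pool.Agent.Shared.Oracle Pool.Agent.Lib.MP_5290c5_lc

attribute [local irreducible] Computable

variable {T : Tgt}

/-- `H` solves the rainbow instance `(B, f, h)`. -/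
def Rb (B : List ℕ → Bool) (f : List ℕ → ℕ) (h : ℕ → ℕ) (H : Re) : Prop :=
  ∀ k : ℕ, (∀ l, B l = true → ∀ l', B l' = true → l ⊆ l' → l = l') →
    (∀ a t, B (a :: t) = true → t.length ≤ h a) →
    (∀ c, {l | B l = true ∧ f l = c}.encard ≤ k) → Inf H ∧ ∀ l l' : List ℕ, B l = true →
      B l' = true → l.Pairwise (· < ·) → l'.Pairwise (· < ·) → (∀ a ∈ l, H a = true) →
        (∀ a ∈ l', H a = true) → f l = f l' → l = l'

theorem sort_inj {s t : Finset ℕ} (h : s.sort (· ≤ ·) = t.sort (· ≤ ·)) : s = t :=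
  Finset.ext fun a => by rw [← Finset.mem_sort (· ≤ ·), h, Finset.mem_sort]

theorem sort_toFinset' {l : List ℕ} (h : l.Pairwise (· < ·)) : l.toFinset.sort (· ≤ ·) = l :=
  (List.toFinset_sort (· ≤ ·) (h.imp ne_of_lt)).2 (h.imp le_of_lt)

theorem exists_rb {Z : Re} (hZ : Good T Z) {B : List ℕ → Bool} {f : List ℕ → ℕ} {h : ℕ → ℕ}
    (hB : ComputableIn {orc Z} B) (hf : ComputableIn {orc Z} f) (hh : ComputableIn {orc Z} h) :
    ∃ H, Good T (join Z H) ∧ Rb B f h H := by
  by_cases hk : ∃ k : ℕ, (∀ l, B l = true → ∀ l', B l' = true → l ⊆ l' → l = l') ∧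
    (∀ a t, B (a :: t) = true → t.length ≤ h a) ∧ ∀ c, {l | B l = true ∧ f l = c}.encard ≤ k
  swap
  · exact ⟨Z, hZ.red (red_join (Red.refl _) (Red.refl _)),
      fun k a b c => absurd ⟨k, a, b, c⟩ hk⟩
  obtain ⟨k, h1, h2, h3⟩ := hk
  have dB : Dec Z fun l => B l = true :=
    Dec.of_cin hB (r := fun y => y.1 = true) (Dec.dec (by fun_prop))
  have df : Dec Z fun x : List ℕ × ℕ => f x.1 = x.2 :=
    Dec.of_cin (f := fun x : List ℕ × ℕ => f x.1) (cin_comp hf ComputableIn.fst)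
      (r := fun y => y.1 = y.2.2) (Dec.dec (by fun_prop))
  have df2 : Dec Z fun x : List ℕ × List ℕ => f x.1 = f x.2 :=
    Dec.of_cin (f := fun x : List ℕ × List ℕ => f x.2) (cin_comp hf ComputableIn.snd)
      (r := fun y => f y.2.1 = y.1)
      (df.comp (f := fun y : ℕ × List ℕ × List ℕ => (y.2.1, y.1)) (by fun_prop))
  have dE : Dec Z fun x : Finset ℕ × Finset ℕ => ¬ x.1 = x.2 ∧ B (x.1.sort (· ≤ ·)) = true ∧
      B (x.2.sort (· ≤ ·)) = true ∧ f (x.1.sort (· ≤ ·)) = f (x.2.sort (· ≤ ·)) :=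
    Dec.and (Dec.dec (by fun_prop)) (Dec.and (dB.comp (by fun_prop))
      (Dec.and (dB.comp (by fun_prop)) (df2.comp (f := fun x : Finset ℕ × Finset ℕ =>
        (x.1.sort (· ≤ ·), x.2.sort (· ≤ ·))) (by fun_prop))))
  have dh : SigIn Z fun x : ℕ × ℕ => (Finset.range (x.1 + 1)).sup h + 1 + k < x.2 := by
    have d1 : Dec Z fun y : (ℕ × ℕ) × ℕ => h y.2 + 1 + k < y.1.2 :=
      Dec.of_cin (f := fun y : (ℕ × ℕ) × ℕ => h y.2) (cin_comp hh ComputableIn.snd)
        (r := fun z => z.1 + 1 + k < z.2.1.2) (Dec.dec (by fun_prop))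
    refine (SigIn.ball (p := fun (x : ℕ × ℕ) i => h i + 1 + k < x.2) (f := fun x => x.1 + 1)
      (by fun_prop) d1.1).congr fun x => ⟨fun H => ?_, fun H i hi => ?_⟩
    · obtain ⟨i, hi, e⟩ := Finset.exists_mem_eq_sup (Finset.range (x.1 + 1)) (by simp) h
      rw [e]
      exact H i (Finset.mem_range.1 hi)
    · have := Finset.le_sup (f := h) (Finset.mem_range.2 hi)
      omega
  have hn : Nice (fun a => (Finset.range (a + 1)).sup h + 1 + k) fun u v =>
      ¬ u = v ∧ B (u.sort (· ≤ ·)) = true ∧ B (v.sort (· ≤ ·)) = true ∧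
        f (u.sort (· ≤ ·)) = f (v.sort (· ≤ ·)) := by
    refine ⟨fun u v e => ⟨fun h => e.1 h.symm, e.2.2.1, e.2.1, e.2.2.2.symm⟩, ?_, ?_, ?_⟩
    · rintro u v ⟨-, e, -⟩ a ha
      have a1 : a ∈ u.sort (· ≤ ·) := (Finset.mem_sort _).2 ha
      have a2 := Finset.pairwise_sort u (· ≤ ·)
      have a3 := Finset.length_sort (s := u) (· ≤ ·)
      generalize u.sort (· ≤ ·) = l at e a1 a2 a3
      rcases l with _ | ⟨b, t⟩
      · simp at a1
      have a4 : b ≤ a := (List.mem_cons.1 a1).elim (fun e => e.ge) ((List.pairwise_cons.1 a2).1 a)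
      have a5 := Finset.le_sup (f := h) (Finset.mem_range.2 (Nat.lt_succ_of_le a4))
      have a6 := h2 b t e
      simp only [List.length_cons] at a3
      simp only [Nat.succ_eq_add_one] at a5
      omega
    · rintro u v ⟨e1, e2, e3, -⟩ hs
      exact e1 (sort_inj (h1 _ e2 _ e3 fun a ha =>
        (Finset.mem_sort _).2 (hs ((Finset.mem_sort _).1 ha))))
    · intro u a _ V hV
      have a1 := (Set.encard_le_encard_of_injOn (s := (V : Set ℕ))
        (t := {l | B l = true ∧ f l = f (u.sort (· ≤ ·))}) (f := fun c => (fs c).sort (· ≤ ·))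
        (fun c hc => ⟨(hV c hc).2.2.1, (hV c hc).2.2.2.symm⟩)
        fun x _ y _ e => fs_inj (sort_inj e)).trans (h3 _)
      rw [Set.encard_coe_eq_coe_finsetCard] at a1
      have a2 : V.card ≤ k := by exact_mod_cast a1
      omega
  obtain ⟨X, ⟨-, p, -, hX⟩, a1, a2⟩ := Cond.exists_good (T := T) ⟨Z, ∅, fun _ => true, Set.univ,
    fun _ u v => ¬ u = v ∧ B (u.sort (· ≤ ·)) = true ∧ B (v.sort (· ≤ ·)) = true ∧
      f (u.sort (· ≤ ·)) = f (v.sort (· ≤ ·)), _, hZ, SigIn.dec (by fun_prop),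
    fun N => ⟨N, le_rfl, rfl⟩, Set.univ_nonempty, pi1_univ Z, S1.of_sigIn dE.1, S1.of_sigIn dE.2,
    dh, fun _ _ => hn, fun _ _ u hu v hv w _ e => e.1 (by
      rw [Finset.subset_empty.1 hu, Finset.subset_empty.1 hv])⟩
  refine ⟨X, a2, fun _ _ _ _ => ⟨a1, fun l l' b1 b2 b3 b4 b5 b6 e => ?_⟩⟩
  by_contra hne
  refine hX l.toFinset l'.toFinset (fun a ha => b5 a (List.mem_toFinset.1 ha))
    (fun a ha => b6 a (List.mem_toFinset.1 ha)) ⟨fun h => hne ?_, ?_⟩
  · rw [← sort_toFinset' b3, h, sort_toFinset' b4]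
  · rw [sort_toFinset' b3, sort_toFinset' b4]
    exact ⟨b1, b2, e⟩

/-- A Turing ideal of good sets closed under solutions. -/
theorem exists_ideal {ι : Type} (Inst : Re → Set ι) (hc : ∀ Z, (Inst Z).Countable)
    (hne : ∀ Z, (Inst Z).Nonempty) (hm : ∀ X Z, Red X Z → Inst X ⊆ Inst Z) (S : ι → Re → Prop)
    (hS : ∀ Z, Good T Z → ∀ i ∈ Inst Z, ∃ H, Good T (join Z H) ∧ S i H) (h0 : Good T emp) :
    ∃ I : Set Re, IsIdeal I ∧ (∀ X ∈ I, ∀ i ∈ Inst X, ∃ H ∈ I, S i H) ∧ ∀ X ∈ I, Good T X := by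
  choose E hE using fun Z => (hc Z).exists_eq_range (hne Z)
  let γ := {c : ℕ → Re // ∀ i, Good T (c i) ∧ Red (c i) (c (i + 1))}
  have mono : ∀ (c : γ) {i j}, i ≤ j → Red (c.1 i) (c.1 j) := by
    intro c i j h
    induction h with
    | refl => exact Red.refl _
    | step _ ih => exact ih.trans (c.2 _).2
  have step : ∀ (s : ℕ) (c : γ), ∃ c' : γ, (∀ i ≤ s, c'.1 i = c.1 i) ∧ ∃ H, Red H (c'.1 (s + 1)) ∧
      S (E (c.1 s.unpair.1) s.unpair.2) H := by
    intro s c
    have h2 : E (c.1 s.unpair.1) s.unpair.2 ∈ Inst (c.1 s.unpair.1) :=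
      hE _ ▸ Set.mem_range_self _
    obtain ⟨H, h3, h4⟩ := hS _ (c.2 s).1 _ (hm _ _ (mono c (Nat.unpair_left_le s)) h2)
    refine ⟨⟨fun i => if i ≤ s then c.1 i else join (c.1 s) H, fun i => ⟨?_, ?_⟩⟩,
      fun i hi => if_pos hi, H, ?_, h4⟩
    · beta_reduce
      split_ifs
      · exact (c.2 i).1
      · exact h3
    · beta_reduce
      by_cases h5 : i + 1 ≤ s
      · rw [if_pos h5, if_pos (by omega)]
        exact (c.2 i).2
      · rw [if_neg h5]
        split_ifs with h6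
        · exact (mono c h6).trans (red_left _ _)
        · exact Red.refl _
    · simp only [Nat.succ_le_iff, lt_irrefl, if_false]
      exact red_right _ _
  obtain ⟨c, -, hc⟩ := exists_seq (γ := γ) ⟨fun _ => emp, fun _ => ⟨h0, Red.refl _⟩⟩ step
  have stab : ∀ {i s}, i ≤ s → (c s).1 i = (c i).1 i := by
    intro i s h
    induction h with
    | refl => rfl
    | step h ih => rw [(hc _).1 i h, ih]
  have mono' : ∀ {i j}, i ≤ j → Red ((c i).1 i) ((c j).1 j) := fun h =>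
    stab h ▸ mono (c _) h
  refine ⟨{X | ∃ s, Red X ((c s).1 s)}, ⟨⟨_, 0, Red.refl _⟩, ?_, ?_⟩, ?_, ?_⟩
  · rintro Y ⟨X, ⟨s, h1⟩, h2⟩
    exact ⟨s, (red_iff.2 h2).trans h1⟩
  · rintro X ⟨s, h1⟩ Y ⟨t, h2⟩
    exact ⟨max s t, red_join (h1.trans (mono' (le_max_left _ _)))
      (h2.trans (mono' (le_max_right _ _)))⟩
  · rintro X ⟨i, h1⟩ x hx
    obtain ⟨j, hj⟩ : x ∈ Set.range (E ((c i).1 i)) := hE _ ▸ hm _ _ h1 hx
    obtain ⟨H, h3, h4⟩ := (hc (Nat.pair i j)).2
    simp only [Nat.unpair_pair] at h4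
    rw [stab (Nat.left_le_pair i j), hj] at h4
    exact ⟨H, ⟨_, h3⟩, h4⟩
  · rintro X ⟨s, h1⟩
    exact ((c s).2 s).1.red h1

theorem exists_model_rb (h0 : Good T emp) : ∃ I : Set Re, IsIdeal I ∧
    (∀ n, RT I (n + 1) (catalan n)) ∧ (∀ B k, Short I B → RRT I B k) ∧ ∀ X ∈ I, Good T X := by
  classical
  obtain ⟨I, h1, h2, h3⟩ := exists_ideal (T := T)
    (ι := Option ℕ × (List ℕ → ℕ) × (List ℕ → Bool) × (ℕ → ℕ))
    (fun Z => Set.univ ×ˢ {f | ComputableIn {orc Z} f} ×ˢ {f | ComputableIn {orc Z} f} ×ˢ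
      {f | ComputableIn {orc Z} f})
    (fun Z => Set.countable_univ.prod ((countable_cin Z).prod
      ((countable_cin Z).prod (countable_cin Z))))
    (fun Z => ⟨(none, fun _ => 0, fun _ => true, fun _ => 0), trivial,
      (Computable.const 0).computableIn, (Computable.const true).computableIn,
      (Computable.const 0).computableIn⟩)
    (fun X Z h i hi => ⟨trivial, cin_red hi.2.1 h, cin_red hi.2.2.1 h, cin_red hi.2.2.2 h⟩)
    (fun i H => i.1.elim (Rb i.2.2.1 i.2.1 i.2.2.2 H) fun n => Sol n i.2.1 H)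
    (by
      rintro Z hZ ⟨_ | n, f, B, h⟩ ⟨-, a, b, c⟩
      · exact exists_rb hZ b a c
      · exact exists_sol hZ n a) h0
  refine ⟨I, h1, ?_, ?_, h3⟩
  · rintro n k f ⟨X, hX, hf⟩ hk
    obtain ⟨H, a, b⟩ := h2 X hX (some n, f, fun _ => true, fun _ => 0)
      ⟨trivial, hf, (Computable.const true).computableIn, (Computable.const 0).computableIn⟩
    exact ⟨H, a, inf_iff.1 (b k hk).1, (b k hk).2⟩
  · rintro B k ⟨⟨X, hX, hB⟩, b1, b2, h, ⟨Y, hY, hh⟩, b3⟩ f ⟨W, hW, hf⟩ hk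
    obtain ⟨H, a, b⟩ := h2 _ (h1.join _ hX _ (h1.join _ hY _ hW))
      (none, f, fun l => decide (l ∈ B), h)
      ⟨trivial, cin_red hf ((red_right _ _).trans (red_right _ _)), cin_red hB (red_left _ _),
        cin_red hh ((red_left _ _).trans (red_right _ _))⟩
    obtain ⟨c, d⟩ := b k (by simpa using b2) (by simpa using b3) (by simpa using hk)
    exact ⟨H, a, inf_iff.1 c, fun l hl l' hl' e => d l l' (by simpa using hl.1)
      (by simpa using hl'.1) (b1 l hl.1) (b1 l' hl'.1) hl.2 hl'.2 e⟩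

theorem dec_pairwise {Z : Re} : Dec Z fun l : List ℕ => l.Pairwise (· < ·) :=
  (Dec.ball (p := fun (l : List ℕ) j => ∀ i < j, l.getD i 0 < l.getD j 0) (f := List.length)
    (by fun_prop) (Dec.ball (by fun_prop) (Dec.dec (by fun_prop)))).congr fun l => by
      rw [List.pairwise_iff_getElem]
      constructor
      · intro H i j hi hj hij
        simpa [List.getElem?_eq_getElem hi, List.getElem?_eq_getElem hj] using H j hj i hij
      · intro H j hj i hij
        have hi : i < l.length := by omega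
        simpa [List.getElem?_eq_getElem hi, List.getElem?_eq_getElem hj] using H i j hi hj hij

theorem mem_bar {j : ℕ} {h : ℕ → ℕ} {l : List ℕ} :
    l ∈ Bar j h ↔ l.Pairwise (· < ·) ∧ l.length = j + 1 + h (l.getD j 0) := by
  refine and_congr_right fun _ => ⟨?_, fun e => ?_⟩
  · rintro ⟨x, a, t, rfl, rfl, e⟩
    simp [e]
    omega
  · have hj : j < l.length := by omega
    refine ⟨l.take j, l[j], l.drop (j + 1), ?_, by simp; omega, ?_⟩
    · rw [← List.drop_eq_getElem_cons hj, List.take_append_drop]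
    · rw [List.getD_eq_getElem _ _ hj] at e
      simp only [List.length_drop]
      omega

theorem bar_sperner {j : ℕ} {h : ℕ → ℕ} (hm : Monotone h) :
    ∀ l ∈ Bar j h, ∀ l' ∈ Bar j h, l ⊆ l' → l = l' := by
  rintro _ ⟨h1, x, a, t, rfl, h2, h3⟩ _ ⟨h4, y, b, s, rfl, h5, h6⟩ hs
  have h7 : b ≤ a := by
    by_contra hc
    have c1 : (x ++ [a]).Pairwise (· < ·) := h1.sublist (by simp)
    have c2 : x ++ [a] ⊆ y := fun z hz => by
      have c3 : z ≤ a := (List.mem_append.1 hz).elim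
        (fun e => ((List.pairwise_append.1 c1).2.2 z e a (by simp)).le) fun e => by simp_all
      have c4 : z ∈ y ++ b :: s := hs (by
        rcases List.mem_append.1 hz with e | e
        · exact List.mem_append_left _ e
        · simp_all)
      rcases List.mem_append.1 c4 with e | e
      · exact e
      · rcases List.mem_cons.1 e with e | e
        · omega
        · have := (List.pairwise_cons.1 (List.pairwise_append.1 h4).2.1).1 z e
          omega
    have c5 : (x ++ [a]).Nodup := c1.imp ne_of_lt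
    have c6 := (c5.subperm c2).length_le
    simp only [List.length_append, List.length_singleton] at c6
    omega
  have h8 : (x ++ a :: t).Nodup := h1.imp ne_of_lt
  have h9 := hm h7
  exact List.Perm.eq_of_pairwise (le := (· < ·)) (fun x y _ _ h h' => absurd h h'.not_gt) h1 h4
    ((h8.subperm hs).perm_of_length_le (by simp; omega))

theorem short_bar {I : Set Re} (hI : IsIdeal I) {j : ℕ} {h : ℕ → ℕ} (hc : Computable h)
    (hm : Monotone h) (hj : ¬ (1 ≤ j ∧ ∀ n, ∃ a, n ≤ h a)) : Short I (Bar j h) := by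
  obtain ⟨Z, hZ⟩ := hI.nonempty
  have d : Dec Z fun l : List ℕ => l ∈ Bar j h :=
    (dec_pairwise.and (Dec.dec (p := fun l : List ℕ => l.length = j + 1 + h (l.getD j 0))
      (by fun_prop))).congr fun l => mem_bar.symm
  refine ⟨⟨Z, hZ, d.cin⟩, fun l hl => hl.1, bar_sperner hm, ?_⟩
  by_cases h0 : j = 0
  · subst h0
    refine ⟨h, ⟨Z, hZ, hc.computableIn⟩, fun a t e => ?_⟩
    have := (mem_bar.1 e).2
    simp at this
    omega
  · have h1 : ¬ ∀ n, ∃ a, n ≤ h a := fun e => hj ⟨by omega, e⟩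
    push Not at h1
    obtain ⟨n, hn⟩ := h1
    refine ⟨fun _ => j + n, ⟨Z, hZ, (Computable.const _).computableIn⟩, fun a t e => ?_⟩
    have h2 := (mem_bar.1 e).2
    have h3 := hn ((a :: t).getD j 0)
    simp only [List.length_cons] at h2
    beta_reduce
    omega

theorem exists_list {H : Re} (hH : Inf H) (n : ℕ) : ∀ b, ∃ l : List ℕ, l.length = n ∧
    l.Pairwise (· < ·) ∧ ∀ a ∈ l, H a = true ∧ b ≤ a := by
  induction n with
  | zero => exact fun b => ⟨[], rfl, by simp, by simp⟩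
  | succ n ih =>
    intro b
    obtain ⟨a, h1, h2⟩ := hH b
    obtain ⟨l, a1, a2, a3⟩ := ih (a + 1)
    refine ⟨a :: l, by simp [a1], List.pairwise_cons.2 ⟨fun c hc => (a3 c hc).2, a2⟩, ?_⟩
    simp only [List.forall_mem_cons]
    exact ⟨⟨h2, h1⟩, fun c hc => ⟨(a3 c hc).1, by have := (a3 c hc).2; omega⟩⟩

theorem exists_numNodes (n : ℕ) : ∃ s : BinaryTree Unit, s.numNodes = n := by
  induction n with
  | zero => exact ⟨.nil, rfl⟩
  | succ n ih =>
    obtain ⟨s, hs⟩ := ih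
    exact ⟨.node () s .nil, by simp [BinaryTree.numNodes, hs]⟩

theorem aca_of_bar {I : Set Re} (hI : IsIdeal I) {j : ℕ} {g : ℕ → ℕ} (hm : Monotone g)
    (hg : ∀ n, ∃ a, n ≤ g a) (h : RRT I (Bar (j + 1) g) 2) : ACA I := by
  classical
  rintro f ⟨Z, hZ, hf⟩
  let L : List ℕ → ℕ → Prop := fun t i =>
    Large f (t.getD i 0) (t.getD (i + 1) 0) (t.getD (t.length - 1) 0)
  let F : List ℕ → ℕ → Prop := fun t c => L t c ∧ ∀ i < c, ¬ L t i
  have uniq : ∀ {t c c'}, F t c → F t c' → c = c' := fun {t c c'} a b => by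
    rcases lt_trichotomy c c' with h | h | h
    · exact absurd a.1 (b.2 _ h)
    · exact h
    · exact absurd b.1 (a.2 _ h)
  have dL : Dec Z fun x : List ℕ × ℕ => L x.1 x.2 :=
    (dec_large hf).comp (f := fun x : List ℕ × ℕ => (x.1.getD x.2 0,
      x.1.getD (x.2 + 1) 0, x.1.getD (x.1.length - 1) 0)) (by fun_prop)
  have dF : Dec Z fun x : List ℕ × ℕ => F x.1 x.2 :=
    dL.and (Dec.ball (by fun_prop)
      (dL.comp (f := fun y : (List ℕ × ℕ) × ℕ => (y.1.1, y.2)) (by fun_prop)).not)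
  let P : List ℕ → ℕ → Prop := fun l x =>
    x = l.headD 0 ∨ F (l.drop (j + 2)) (Nat.pair x (l.headD 0))
  have dP : Dec Z fun x : List ℕ × ℕ => P x.1 x.2 :=
    ((Dec.dec (p := fun x : List ℕ × ℕ => x.2 = x.1.headD 0) (by fun_prop)).not.and
      (dF.comp (f := fun x : List ℕ × ℕ => (x.1.drop (j + 2), Nat.pair x.2 (x.1.headD 0)))
        (by fun_prop)).not).not.congr fun x => by simp only [P]; tauto
  have ex : ∀ l, ∃ x, P l x := fun l => ⟨_, Or.inl rfl⟩
  have g1 : SigIn Z fun y : List ℕ × ℕ => Nat.find (ex y.1) = y.2 :=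
    (SigIn.and dP.1 (SigIn.ball (p := fun (y : List ℕ × ℕ) i => ¬ P y.1 i) (f := fun y => y.2)
      (by fun_prop) (dP.2.comp (f := fun y : (List ℕ × ℕ) × ℕ => (y.1.1, y.2))
        (by fun_prop)))).congr fun y => (Nat.find_eq_iff _).symm
  have g2 : ComputableIn {orc Z} fun l : List ℕ => Encodable.encode (Nat.find (ex l) :: l.tail) :=
    cin_of_graph ((SigIn.ex (p := fun (y : List ℕ × ℕ) m => Nat.find (ex y.1) = m ∧
      Encodable.encode (m :: y.1.tail) = y.2) (SigIn.and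
        (g1.comp (f := fun y : (List ℕ × ℕ) × ℕ => (y.1.1, y.2)) (by fun_prop))
        (SigIn.dec (by fun_prop)))).congr fun y =>
          ⟨fun ⟨m, a, b⟩ => a ▸ b, fun a => ⟨_, rfl, a⟩⟩)
  obtain ⟨H, hH, hinf, hinj⟩ := h _ ⟨Z, hZ, g2⟩ fun c => by
    rcases Set.eq_empty_or_nonempty {l ∈ Bar (j + 1) g |
      Encodable.encode (Nat.find (ex l) :: l.tail) = c} with e | ⟨l₀, -, e₀⟩
    · rw [e]
      simp
    obtain ⟨z, hz⟩ : ∃ z, ∀ y, F (l₀.drop (j + 2)) (Nat.pair (Nat.find (ex l₀)) y) → y = z := by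
      by_cases h : ∃ y, F (l₀.drop (j + 2)) (Nat.pair (Nat.find (ex l₀)) y)
      · obtain ⟨z, hz⟩ := h
        exact ⟨z, fun y hy => (Nat.pair_eq_pair.1 (uniq hy hz)).2⟩
      · exact ⟨0, fun y hy => absurd ⟨y, hy⟩ h⟩
    refine (Set.encard_mono (b := {Nat.find (ex l₀) :: l₀.tail, z :: l₀.tail}) ?_).trans
      ((Set.encard_insert_le _ _).trans (by rw [Set.encard_singleton]; norm_num))
    rintro l ⟨hl, e⟩
    rcases l with _ | ⟨x, s⟩
    · have := (mem_bar.1 hl).2
      simp only [List.length_nil] at this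
      omega
    obtain ⟨e1, e2⟩ := List.cons.inj (Encodable.encode_injective (e.trans e₀.symm))
    have e3 := Nat.find_spec (ex (x :: s))
    rw [e1] at e3
    simp only [List.tail_cons] at e2
    rcases e3 with e3 | e3
    · left
      rw [e3, e2]
      rfl
    · right
      have e4 : (x :: s).drop (j + 2) = l₀.drop (j + 2) := by
        rw [e2]
        simp
      rw [e4] at e3
      rw [← hz _ e3, e2]
      rfl
  have hf' : ComputableIn {orc (join Z H)} f := cin_red hf (red_left _ _)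
  by_cases hn : SigIn (join Z H) fun i => i ∉ Set.range f
  · exact hI.down _ ⟨_, hI.join Z hZ H hH, Dec.cin ⟨SigIn.ex (p := fun i x => f x = i)
      ((graph_of_cin hf').comp (f := fun x : ℕ × ℕ => (x.2, x.1)) (by fun_prop)), hn⟩⟩
  exfalso
  have hinf' := inf_iff.2 hinf
  obtain ⟨x, -, hx⟩ := hinf' 0
  obtain ⟨y, hxy, hy⟩ := hinf' (x + 1)
  obtain ⟨m, m1, m2, m3⟩ := exists_list hinf' j (y + 1)
  obtain ⟨a₀, ha₀⟩ := hg (Nat.pair x y + 2)
  obtain ⟨a, ha1, ha⟩ := hinf' (y + m.sum + a₀ + 1)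
  have ha2 := hm (show a₀ ≤ a by omega)
  obtain ⟨s, hs⟩ := exists_numNodes (Nat.pair x y)
  obtain ⟨s', hs'⟩ := exists_numNodes (g a - Nat.pair x y - 2)
  obtain ⟨t, a1, a2, a3⟩ := realize hf' (red_right _ _) hinf' hn (.node () s s') (a + 1)
  have a4 : t.length = g a := by
    rw [a1.length]
    simp only [BinaryTree.numNodes]
    omega
  have a5 : F t (Nat.pair x y) := hs ▸ a1.2.2
  have a6 : ∀ z, z ≤ y → H z = true →
      z :: (m ++ a :: t) ∈ {l ∈ Bar (j + 1) g | ∀ b ∈ l, H b = true} := fun z hz hz' => by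
    have b1 : (a :: t).Pairwise (· < ·) := List.pairwise_cons.2 ⟨fun b hb => (a3 b hb).2, a2⟩
    have b2 : ∀ b ∈ a :: t, a ≤ b ∧ H b = true := by
      simp only [List.forall_mem_cons]
      exact ⟨⟨le_rfl, ha⟩, fun b hb => ⟨by have := (a3 b hb).2; omega, (a3 b hb).1⟩⟩
    refine ⟨⟨List.pairwise_cons.2 ⟨fun b hb => ?_, List.pairwise_append.2 ⟨m2, b1,
      fun b hb c hc => ?_⟩⟩, z :: m, a, t, rfl, by simp [m1], a4⟩, fun b hb => ?_⟩
    · rcases List.mem_append.1 hb with hb | hb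
      · have := (m3 b hb).2
        omega
      · have := (b2 b hb).1
        omega
    · have c1 := List.le_sum_of_mem hb
      have c2 := (b2 c hc).1
      omega
    · rcases List.mem_cons.1 hb with rfl | hb
      · exact hz'
      · exact (List.mem_append.1 hb).elim (fun e => (m3 b e).1) fun e => (b2 b e).2
  have hd : ∀ z, (z :: (m ++ a :: t)).drop (j + 2) = t := fun z => by
    rw [List.drop_succ_cons, show m ++ a :: t = (m ++ [a]) ++ t by simp,
      List.drop_left' (by simp [m1])]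
  have a7 : Nat.find (ex (x :: (m ++ a :: t))) = x := (Nat.find_eq_iff _).2 ⟨Or.inl rfl, by
    rintro i hi (e | e)
    · exact hi.ne e
    · rw [hd] at e
      exact hi.ne (Nat.pair_eq_pair.1 (uniq e a5)).1⟩
  have a8 : Nat.find (ex (y :: (m ++ a :: t))) = x := (Nat.find_eq_iff _).2
    ⟨Or.inr (by rw [hd]; exact a5), by
      rintro i hi (e | e)
      · simp only [List.headD_cons] at e
        omega
      · rw [hd] at e
        exact hi.ne (Nat.pair_eq_pair.1 (uniq e a5)).1⟩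
  have a9 := hinj (a6 x (by omega) hx) (a6 y le_rfl hy) (by simp only [a7, a8, List.tail_cons])
  have := (List.cons.inj a9).1
  omega

theorem ts_of_rt' {I : Set Re} {n ℓ : ℕ} (h : RT I n ℓ) : TS I n := by
  rintro f ⟨Z, hZ, hf⟩
  obtain ⟨H, a, b, J, c, d⟩ := h (ℓ + 2) (fun l => min (f l) (ℓ + 1))
    ⟨Z, hZ, cin_comp (f := fun x => min x (ℓ + 1))
      (Primrec.nat_min.comp Primrec.id (Primrec.const _)).to_comp.computableIn hf⟩
    fun l => by omega
  obtain ⟨x, x1, x2⟩ := Finset.exists_mem_notMem_of_card_lt_card (s := J)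
    (t := Finset.range (ℓ + 1)) (by simp; omega)
  refine ⟨H, a, b, x, fun l h1 h2 h3 e => x2 ?_⟩
  have := d l h1 h2 h3
  rwa [e, min_eq_left (by simp at x1; omega)] at this

end Pool.Agent.FS.SchreierRainbow
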