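import Pool.Agent.FS.SchreierRainbow.Graph

/-!
The forcing step, and good infinite sets without an edge.
-/

namespace Pool.Agent.FS.SchreierRainbow

open Pool.Agent.Lib.MP_b33ea7_lc Pool.Agent.Shared.Oracle Pool.Agent.Lib.MP_5290c5_lc

attribute [local irreducible] Computable

variable {T : Tgt} {α : Type} [Primcodable α]

/-- The graph coded by a point. -/
def gdec (g : Re) : Gr := fun u v => g (Nat.pair (code u) (code v)) = true

theorem exists_gdec (G : Gr) : ∃ g, gdec g = G := by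
  classical
  exact ⟨fun n => decide (G (fs n.unpair.1) (fs n.unpair.2)), funext fun u => funext fun v => by
    simp [gdec]⟩

theorem s1_gdec {Z : Re} {s t : α → Finset ℕ} (hs : Computable s) (ht : Computable t) :
    S1 Z fun a g => gdec g (s a) (t a) :=
  S1.pt (f := fun a => Nat.pair (code (s a)) (code (t a))) (g := fun _ => true) (by fun_prop)
    (by fun_prop)

theorem s1_not_gdec {Z : Re} {s t : α → Finset ℕ} (hs : Computable s) (ht : Computable t) :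
    S1 Z fun a g => ¬ gdec g (s a) (t a) :=
  (S1.pt (f := fun a => Nat.pair (code (s a)) (code (t a))) (g := fun _ => false) (by fun_prop)
    (by fun_prop)).congr fun _ _ => by simp [gdec]

theorem s1_subset {Z : Re} {s t : α → Finset ℕ} (hs : Computable s) (ht : Computable t) :
    S1 Z fun a _ => s a ⊆ t a :=
  (S1.ball_mem (P := fun a j _ => j ∈ t a) hs (S1.dec (by fun_prop))).congr fun _ _ => Iff.rfl

theorem s1_frF {Z : Re} {s : α → Finset ℕ} (hs : Computable s) :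
    S1 Z fun a g => FrF (gdec g) (s a) :=
  S1.ball_sub (P := fun a u g => ∀ v ⊆ s a, ¬ gdec g u v) hs
    (S1.ball_sub (P := fun (x : α × Finset ℕ) v g => ¬ gdec g x.2 v) (by fun_prop)
      (s1_not_gdec (by fun_prop) (by fun_prop)))

theorem sigIn_star {Z : Re} {D : ℕ → ℕ} (hD : SigIn Z fun x : ℕ × ℕ => D x.1 < x.2) :
    SigIn Z fun x : ℕ × ℕ => star D x.1 < x.2 :=
  (SigIn.ex (p := fun (x : ℕ × ℕ) m => D x.1 < m + 1 ∧ m * (m * 4 ^ m + 1) < x.2)
    (SigIn.and (hD.comp (f := fun y : (ℕ × ℕ) × ℕ => (y.1.1, y.2 + 1)) (by fun_prop))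
      (SigIn.dec (by fun_prop)))).congr fun x =>
    ⟨fun ⟨m, h1, h2⟩ => lt_of_le_of_lt (by
      have h3 : D x.1 ≤ m := by omega
      unfold star
      gcongr
      omega) h2, fun h => ⟨D x.1, Nat.lt_succ_self _, h⟩⟩

theorem sigIn_add {Z : Re} {D D' : ℕ → ℕ} (hD : SigIn Z fun x : ℕ × ℕ => D x.1 < x.2)
    (hD' : SigIn Z fun x : ℕ × ℕ => D' x.1 < x.2) :
    SigIn Z fun x : ℕ × ℕ => D x.1 + D' x.1 < x.2 :=
  (SigIn.ex (p := fun (x : ℕ × ℕ) (m : ℕ × ℕ) => D x.1 < m.1 + 1 ∧ D' x.1 < m.2 + 1 ∧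
      m.1 + m.2 < x.2)
    (SigIn.and (hD.comp (f := fun y : (ℕ × ℕ) × ℕ × ℕ => (y.1.1, y.2.1 + 1)) (by fun_prop))
      (SigIn.and (hD'.comp (f := fun y : (ℕ × ℕ) × ℕ × ℕ => (y.1.1, y.2.2 + 1)) (by fun_prop))
        (SigIn.dec (by fun_prop))))).congr fun x =>
    ⟨fun ⟨m, h1, h2, h3⟩ => by omega,
      fun h => ⟨(D x.1, D' x.1), Nat.lt_succ_self _, Nat.lt_succ_self _, h⟩⟩

theorem pi1_class {Z Y : Re} (hY : Red Y Z) {D : ℕ → ℕ}
    (hD : SigIn Z fun x : ℕ × ℕ => D x.1 < x.2) (σ : Finset ℕ) :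
    Pi1 Z {g | Nice D (gdec g) ∧ Tw σ Y (gdec g)} := by
  have h1 : S1 Z fun (_ : Unit) g => (∃ u v, gdec g u v ∧ ¬ gdec g v u) ∨
      (∃ u v, gdec g u v ∧ ∃ a, a ∈ u ∧ D a < u.card) ∨ (∃ u v, gdec g u v ∧ u ⊆ v) ∨
      (∃ (u : Finset ℕ) (a : ℕ), a ∈ u ∧ ∃ V : Finset ℕ, (∀ c ∈ V, gdec g u (fs c)) ∧
        D a < V.card) ∨
      ∃ u, u ⊆ σ ∧ ∃ v, v ⊆ σ ∧ ∃ w, In w Y ∧ gdec g (u ∪ w) (v ∪ w) := by
    refine S1.or ?_ (S1.or ?_ (S1.or ?_ (S1.or ?_ ?_)))
    · exact S1.ex (S1.ex (S1.and (s1_gdec (by fun_prop) (by fun_prop))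
        (s1_not_gdec (by fun_prop) (by fun_prop))))
    · exact S1.ex (S1.ex (S1.and (s1_gdec (by fun_prop) (by fun_prop))
        (S1.ex (S1.and (S1.dec (by fun_prop)) (S1.of_sigIn (hD.comp
          (f := fun x : ((Unit × Finset ℕ) × Finset ℕ) × ℕ => (x.2, x.1.1.2.card))
            (by fun_prop)))))))
    · exact S1.ex (S1.ex (S1.and (s1_gdec (by fun_prop) (by fun_prop))
        (s1_subset (by fun_prop) (by fun_prop))))
    · exact S1.ex (S1.ex (S1.and (S1.dec (by fun_prop)) (S1.ex (S1.and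
        (S1.ball_mem (P := fun (x : ((Unit × Finset ℕ) × ℕ) × Finset ℕ) c g =>
          gdec g x.1.1.2 (fs c)) (by fun_prop) (s1_gdec (by fun_prop) (by fun_prop)))
        (S1.of_sigIn (hD.comp
          (f := fun x : ((Unit × Finset ℕ) × ℕ) × Finset ℕ => (x.1.2, x.2.card))
            (by fun_prop)))))))
    · exact S1.ex (S1.and (s1_subset (by fun_prop) (by fun_prop)) (S1.ex (S1.and
        (s1_subset (by fun_prop) (by fun_prop)) (S1.ex (S1.and (s1_in hY (by fun_prop))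
          (s1_gdec (by fun_prop) (by fun_prop)))))))
  refine h1.congr fun _ g => ⟨?_, fun h => ?_⟩
  · rintro h ⟨hn, ht⟩
    rcases h with ⟨u, v, a, b⟩ | ⟨u, v, a, x, b, c⟩ | ⟨u, v, a, b⟩ | ⟨u, a, b, V, c, d⟩ |
      ⟨u, a, v, b, w, c, d⟩
    · exact b (hn.symm _ _ a)
    · exact absurd (hn.size _ _ a x b) (by omega)
    · exact hn.anti _ _ a b
    · exact absurd (hn.deg u a b V c) (by omega)
    · exact ht u a v b w c d
  · by_contra hc
    push Not at hc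
    obtain ⟨a, b, c, d, e⟩ := hc
    exact h ⟨⟨a, b, c, d⟩, e⟩

/-- Adding the graphs of a closed class to a condition. -/
theorem Cond.prod (c : Cond T) {P : Set Re} {D : ℕ → ℕ} (hne : P.Nonempty) (hP : Pi1 c.Z P)
    (hD : SigIn c.Z fun x : ℕ × ℕ => D x.1 < x.2)
    (h : ∀ g ∈ P, Nice D (gdec g) ∧ Tw c.σ c.Y (gdec g)) :
    ∃ e : Cond T, e.Z = c.Z ∧ e.σ = c.σ ∧ e.Y = c.Y ∧ e.Poss ⊆ c.Poss ∧
      ∀ X ∈ e.Poss, ∃ g ∈ P, Fr (gdec g) X := by
  classical
  let l : ℕ → ℕ := fun n => 2 * n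
  let r : ℕ → ℕ := fun n => 2 * n + 1
  have hl : Computable l := by unfold l; fun_prop
  have hr : Computable r := by unfold r; fun_prop
  refine ⟨⟨c.Z, c.σ, c.Y, {p | p ∘ l ∈ c.P ∧ p ∘ r ∈ P},
    fun p u v => c.E (p ∘ l) u v ∨ gdec (p ∘ r) u v, fun a => c.D a + D a, c.good, c.red, c.inf,
    ?_, ?_, ?_, ?_, sigIn_add c.cD hD, ?_, ?_⟩, rfl, rfl, rfl, ?_, ?_⟩
  · obtain ⟨p, hp⟩ := c.ne
    obtain ⟨q, hq⟩ := hne
    have h1 : join p q ∘ l = p := funext fun n => join_even p q n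
    have h2 : join p q ∘ r = q := funext fun n => join_odd p q n
    exact ⟨join p q, by rw [h1]; exact hp, by rw [h2]; exact hq⟩
  · exact (S1.or (S1.reindex c.pi hl) (S1.reindex hP hr)).congr fun _ p => by
      simp only [Set.mem_ofPred_eq]; tauto
  · exact S1.or (c.pos.reindex hl) ((s1_gdec Computable.fst Computable.snd).reindex hr)
  · exact (S1.and (c.neg.reindex hl)
      ((s1_not_gdec Computable.fst Computable.snd).reindex hr)).congr fun _ _ => not_or.symm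
  · rintro p ⟨h1, h2⟩
    have h3 := c.nice _ h1
    have h4 := (h _ h2).1
    refine ⟨fun u v e => e.imp (h3.symm u v) (h4.symm u v),
      fun u v e a ha => e.elim (fun e => (h3.size u v e a ha).trans (Nat.le_add_right _ _))
        fun e => (h4.size u v e a ha).trans (Nat.le_add_left _ _),
      fun u v e => e.elim (h3.anti u v) (h4.anti u v), fun u a ha V hV => ?_⟩
    have h5 := h3.deg u a ha (V.filter fun x => c.E (p ∘ l) u (fs x))
      fun x hx => (Finset.mem_filter.1 hx).2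
    have h6 := h4.deg u a ha (V.filter fun x => gdec (p ∘ r) u (fs x))
      fun x hx => (Finset.mem_filter.1 hx).2
    refine (Finset.card_le_card (t := V.filter (fun x => c.E (p ∘ l) u (fs x)) ∪
      V.filter fun x => gdec (p ∘ r) u (fs x)) fun x hx => ?_).trans
      ((Finset.card_union_le _ _).trans (Nat.add_le_add h5 h6))
    exact Finset.mem_union.2 ((hV x hx).imp (fun e => Finset.mem_filter.2 ⟨hx, e⟩)
      fun e => Finset.mem_filter.2 ⟨hx, e⟩)
  · rintro p ⟨h1, h2⟩ u hu v hv w hw (e | e)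
    · exact c.tw _ h1 u hu v hv w hw e
    · exact (h _ h2).2 u hu v hv w hw e
  · rintro X ⟨h1, p, hp, h2⟩
    exact ⟨h1, _, hp.1, fun u v a b e => h2 u v a b (Or.inl e)⟩
  · rintro X ⟨-, p, hp, h2⟩
    exact ⟨_, hp.2, fun u v a b e => h2 u v a b (Or.inr e)⟩

theorem subset_range (σ : Finset ℕ) {N : ℕ} (h : σ.sup id < N) : σ ⊆ Finset.range N :=
  fun _ ha => Finset.mem_range.2 ((Finset.le_sup (f := id) ha).trans_lt h)

theorem Cond.step (c : Cond T) {R : Re → Prop} (hR : IsReq T c.Z R) :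
    ∃ d : Cond T, Red c.Z d.Z ∧ d.Poss ⊆ c.Poss ∧ ∀ X ∈ d.Poss, R X := by
  classical
  rcases hR with ⟨M, e⟩ | ⟨W, b, hW, e⟩
  · obtain ⟨A, h1, h2⟩ := (inf_iff.1 (c.inf.cut M)).exists_subset_card_eq
      (c.σ.sup (star c.D) * 2 ^ c.σ.card + 1)
    have h3 : In A (cut c.Y M) := fun a ha => h1 ha
    obtain ⟨G, g1, g2, g3⟩ := c.types (c.σ.sup id + A.sup id + 1) (subset_range _ (by omega))
    obtain ⟨a, ha, h4⟩ := one_point g1 g2 (h3.sub (cut_sub _ _)) (by omega)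
    obtain ⟨d, d1, d2, d3⟩ := g3 {a} ((Finset.singleton_subset_iff.2 ha).trans
      (subset_range _ (by omega))) (by simpa [In] using (cut_true.1 (h3 a ha)).2) h4 0
    exact ⟨d, d1, d2, fun X hX => (e X).2 ⟨a, (cut_true.1 (h3 a ha)).1, (d3 X hX).1 a (by simp)⟩⟩
  have hD := sigIn_star c.cD
  have hpi := pi1_class c.red hD c.σ
  let V : (ℕ × Finset ℕ) × Finset ℕ → Re → Prop := fun x g => In x.2 c.Y ∧
    FrF (gdec g) (c.σ ∪ x.2) ∧
    ∃ B : Finset ℕ, B.card ≤ b ∧ Disjoint B x.1.2 ∧ W (x.1.1, B) (add (c.σ ∪ x.2) emp)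
  have hV : S1 c.Z V :=
    S1.and (s1_in c.red (by fun_prop)) (S1.and (s1_frF (by fun_prop))
      (S1.ex (S1.and (S1.dec (by fun_prop)) (S1.and (s1_disjoint (by fun_prop) (by fun_prop))
        (s1_at_add hW c.σ (by fun_prop) (by fun_prop))))))
  have hV' : S1 c.Z fun x g => ∃ ρ, V (x, ρ) g := S1.ex hV
  rcases c.good.disperse (hpi.all hV') with ⟨n, hn⟩ | h
  · have h1 : ∃ N, ∀ g, Nice (star c.D) (gdec g) ∧ Tw c.σ c.Y (gdec g) →
        ∃ ρ, ρ ⊆ Finset.range N ∧ V ((n, T.C n), ρ) g := by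
      by_contra hcon
      have h2 : ∀ N, S1 c.Z fun (_ : Unit) g => ∃ ρ, ρ ⊆ Finset.range N ∧ V ((n, T.C n), ρ) g :=
        fun N => S1.ex (S1.and (s1_subset (by fun_prop) (by fun_prop))
          (hV.comp (f := fun x : Unit × Finset ℕ => ((n, T.C n), x.2)) (by fun_prop)))
      obtain ⟨g, hg⟩ := exists_mem_all (K := fun N => {g | g ∈ {g | Nice (star c.D) (gdec g) ∧
          Tw c.σ c.Y (gdec g)} ∧ ¬ ∃ ρ, ρ ⊆ Finset.range N ∧ V ((n, T.C n), ρ) g})
        (fun N g hg => ⟨hg.1, fun ⟨ρ, a, b⟩ =>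
          hg.2 ⟨ρ, a.trans (Finset.range_mono (Nat.le_succ _)), b⟩⟩)
        (fun N => by
          by_contra h3
          refine hcon ⟨N, fun g hg => ?_⟩
          by_contra h4
          exact h3 ⟨g, hg, h4⟩)
        fun N => (hpi.sep (h2 N)).isClosed
      obtain ⟨ρ, hρ⟩ := hn g (hg 0).1
      exact (hg (ρ.sup id + 1)).2 ⟨ρ, subset_range _ (by omega), hρ⟩
    obtain ⟨N, hN⟩ := h1
    obtain ⟨G, g1, g2, g3⟩ := c.types (c.σ.sup id + N + 1) (subset_range _ (by omega))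
    obtain ⟨g, rfl⟩ := exists_gdec G
    obtain ⟨ρ, r1, r2, r3, B, r4, r5, r6⟩ := hN g ⟨g1, g2⟩
    obtain ⟨u, hu⟩ := hW.use r6
    obtain ⟨d, d1, d2, d3⟩ := g3 ρ (r1.trans (Finset.range_mono (by omega))) r2 r3 u
    exact ⟨d, d1, d2, fun X hX => (e X).2 ⟨n, Or.inr ⟨B, r4, hu X (d3 X hX).2, r5⟩⟩⟩
  obtain ⟨n, hn⟩ := h b
  let P : Finset ℕ → Set Re := fun S => {g | g ∈ {g | Nice (star c.D) (gdec g) ∧
    Tw c.σ c.Y (gdec g)} ∧ ¬ ∃ ρ, V ((n, S), ρ) g}
  have key : ∀ L : Finset (Finset ℕ), ∃ d : Cond T, d.Z = c.Z ∧ d.σ = c.σ ∧ d.Y = c.Y ∧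
      d.Poss ⊆ c.Poss ∧ ∀ S ∈ L, (P S).Nonempty → ∀ X ∈ d.Poss, ∃ g ∈ P S, Fr (gdec g) X := by
    intro L
    induction L using Finset.induction_on with
    | empty => exact ⟨c, rfl, rfl, rfl, subset_rfl, by simp⟩
    | insert S L _ ih =>
      obtain ⟨d, a1, a2, a3, a4, a5⟩ := ih
      by_cases hS : (P S).Nonempty
      · obtain ⟨d', b1, b2, b3, b4, b5⟩ := d.prod (P := P S) hS
          (a1 ▸ hpi.sep (hV'.comp (f := fun _ => (n, S)) (by fun_prop))) (a1 ▸ hD)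
          (fun g hg => by rw [a2, a3]; exact hg.1)
        refine ⟨d', b1.trans a1, b2.trans a2, b3.trans a3, b4.trans a4, fun S' hS' h' X hX => ?_⟩
        rcases Finset.mem_insert.1 hS' with rfl | hS'
        · exact b5 X hX
        · exact a5 S' hS' h' X (b4 hX)
      · refine ⟨d, a1, a2, a3, a4, fun S' hS' h' => ?_⟩
        rcases Finset.mem_insert.1 hS' with rfl | hS'
        · exact absurd h' hS
        · exact a5 S' hS' h'
  obtain ⟨d, a1, a2, a3, a4, a5⟩ := key (Finset.range (2 ^ n)).powerset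
  refine ⟨d, a1 ▸ Red.refl _, a4, fun X hX => (e X).2 ⟨n, Or.inl fun B hB hW' => ?_⟩⟩
  obtain ⟨S, s1, s2, s3⟩ := hn B hB
  have s4 : (P S).Nonempty := by
    by_contra h1
    refine s2 fun g hg => ?_
    by_contra h2
    exact h1 ⟨g, hg, h2⟩
  obtain ⟨g, hg, hf⟩ := a5 S (Finset.mem_powerset.2 s1) s4 X hX
  obtain ⟨u, hu⟩ := hW.use hW'
  have hX' := (a4 hX).1
  have h4 : In (c.σ ∪ (Finset.range u).filter fun a => X a = true ∧ c.Y a = true) X :=
    fun a ha => (Finset.mem_union.1 ha).elim (hX'.1 a) fun h => (Finset.mem_filter.1 h).2.1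
  refine hg.2 ⟨(Finset.range u).filter fun a => X a = true ∧ c.Y a = true,
    fun a ha => (Finset.mem_filter.1 ha).2.2,
    fun s hs t ht => hf s t (h4.mono hs) (h4.mono ht), B, hB, s3, hu _ fun i hi => re_ext ?_⟩
  simp only [add_true, Finset.mem_union, Finset.mem_filter, Finset.mem_range, emp_true, or_false]
  exact ⟨fun h => h.elim (hX'.1 i) fun h => h.2.1,
    fun h => (hX'.2 i h).imp id fun h' => ⟨hi, h, h'⟩⟩

/-- Every condition leaves possible an infinite good set. -/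
theorem Cond.exists_good (c : Cond T) : ∃ X ∈ c.Poss, Inf X ∧ Good T (join c.Z X) := by
  obtain ⟨R, hR, hX⟩ := exists_reqs T c.Z
  have step : ∀ (s : ℕ) (d : {d : Cond T // Red c.Z d.Z}), ∃ d' : {d : Cond T // Red c.Z d.Z},
      d'.1.Poss ⊆ d.1.Poss ∧ ∀ X ∈ d'.1.Poss, R s X := fun s d =>
    let ⟨d', a1, a2, a3⟩ := d.1.step ((hR s).red d.2)
    ⟨⟨d', d.2.trans a1⟩, a2, a3⟩
  obtain ⟨d, d0, hd⟩ := exists_seq ⟨c, Red.refl _⟩ step
  obtain ⟨X, hX'⟩ := exists_mem_all (K := fun s => (d s).1.Poss) (fun s => (hd s).1)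
    (fun s => (d s).1.poss_ne) fun s => (d s).1.poss_closed
  refine ⟨X, ?_, hX X fun s => (hd s).2 X (hX' (s + 1))⟩
  have := hX' 0
  rwa [d0] at this

end Pool.Agent.FS.SchreierRainbow
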